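import Pool.Agent.N929.EZ.Area

/-!
Self-avoiding polygons on the square lattice: regularity to all orders, in the perimeter, of all
normalised moments of the area.
-/

set_option autoImplicit false

namespace Pool.Agent.Results.MP_f6626d_co.AllOrders

/-- a closed nearest-neighbour loop on `ℤ²` with `m` steps, rooted at the origin and oriented,
that visits no vertex twice -/
def IsLoop (m : ℕ) (f : ZMod m → ℤ × ℤ) : Prop :=
  f 0 = 0 ∧ Function.Injective f ∧
    ∀ i : ZMod m, |(f (i + 1)).1 - (f i).1| + |(f (i + 1)).2 - (f i).2| = 1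

/-- the edge from `f k` to `f (k+1)` is horizontal, joins the columns `x = a` and `x = a + 1`, and
has height larger than `b`: it lies above the unit cell `[a, a+1] × [b, b+1]` -/
def Above (m : ℕ) (f : ZMod m → ℤ × ℤ) (a b : ℤ) (k : ZMod m) : Prop :=
  (((f k).1 = a ∧ (f (k + 1)).1 = a + 1) ∨ ((f k).1 = a + 1 ∧ (f (k + 1)).1 = a)) ∧ b < (f k).2

/-- the unit cell `[a, a+1] × [b, b+1]` is enclosed by the loop: the vertical ray from the cell
upwards crosses an odd number of edges -/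
def Encl (m : ℕ) (f : ZMod m → ℤ × ℤ) (c : ℤ × ℤ) : Prop :=
  Odd (Nat.card {k : ZMod m // Above m f c.1 c.2 k})

/-- the area: the number of unit cells enclosed by the loop -/
noncomputable def area (m : ℕ) (f : ZMod m → ℤ × ℤ) : ℕ := Nat.card {c : ℤ × ℤ // Encl m f c}

/-- expectation under the uniform law on the (rooted, oriented) self-avoiding polygons of
perimeter `2 n` -/
noncomputable def E (n : ℕ) (F : (ZMod (2 * n) → ℤ × ℤ) → ℝ) : ℝ :=
  (∑ᶠ f ∈ {f : ZMod (2 * n) → ℤ × ℤ | IsLoop (2 * n) f}, F f) /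
    ({f : ZMod (2 * n) → ℤ × ℤ | IsLoop (2 * n) f}.ncard : ℝ)

/-- the mean area `E[A_n]` -/
noncomputable def meanArea (n : ℕ) : ℝ := E n (fun f => (area (2 * n) f : ℝ))

/-- the `k`-th moment `E[(A_n / E[A_n])^k]` of the normalised area -/
noncomputable def nmoment (k n : ℕ) : ℝ := E n (fun f => ((area (2 * n) f : ℝ) / meanArea n) ^ k)

open Pool.Agent.H976R2 Pool.Agent.N929.EZ Pool.Agent.H739K

theorem E_eq (F : (n : ℕ) → (ZMod (2 * n) → ℤ × ℤ) → ℝ) (G : ℕ → List Dir → ℝ)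
    (hF : ∀ n, 2 ≤ n → ∀ w ∈ KP (2 * n - 1), F n (lp (2 * n) w) = G n w) {n : ℕ} (hn : 2 ≤ n) :
    E n (F n) = (∑ w ∈ KP (2 * n - 1), G n w) / ((KP (2 * n - 1)).card : ℝ) := by
  obtain ⟨h1, h2, -⟩ := Pool.Agent.H739K.CONV_proof n hn
  unfold E
  have e1 : {f : ZMod (2 * n) → ℤ × ℤ | IsLoop (2 * n) f} =
    {f : ZMod (2 * n) → ℤ × ℤ | Pool.Agent.H924P.IsLoop (2 * n) f} := rfl
  rw [e1, h2, h1 (F n)]
  congr 1
  exact Finset.sum_congr rfl (fun w hw => hF n hn w hw)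

theorem area_word {n : ℕ} (hn : 2 ≤ n) {w : List Dir} (hw : w ∈ KP (2 * n - 1)) :
    area (2 * n) (lp (2 * n) w) = ar w := by
  have hl := (KP_mem hw).2.2
  unfold ar
  rw [hl, show 2 * n - 1 + 1 = 2 * n by omega]
  rfl

theorem mean_eq {n : ℕ} (hn : 2 ≤ n) :
    meanArea n = (∑ w ∈ KP (2 * n - 1), (ar w : ℝ) ^ 1) / ((KP (2 * n - 1)).card : ℝ) := by
  unfold meanArea
  rw [E_eq (fun n f => (area (2 * n) f : ℝ)) (fun n w => (ar w : ℝ) ^ 1)
    (fun n hn w hw => by rw [area_word hn hw, pow_one]) hn]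

theorem nm_eq (k : ℕ) {n : ℕ} (hn : 2 ≤ n) :
    nmoment k n = ((∑ w ∈ KP (2 * n - 1), (ar w : ℝ) ^ k) / ((KP (2 * n - 1)).card : ℝ)) /
      ((∑ w ∈ KP (2 * n - 1), (ar w : ℝ) ^ 1) / ((KP (2 * n - 1)).card : ℝ)) ^ k := by
  unfold nmoment
  rw [E_eq (fun n f => ((area (2 * n) f : ℝ) / meanArea n) ^ k)
    (fun n w => ((ar w : ℝ) / meanArea n) ^ k)
    (fun n hn w hw => by rw [area_word hn hw]) hn, ← mean_eq hn]
  simp_rw [div_pow]
  rw [← Finset.sum_div, div_right_comm]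

theorem mk_pos (k : ℕ) {n : ℕ} (hn : 2 ≤ n) :
    0 < (∑ w ∈ KP (2 * n - 1), (ar w : ℝ) ^ k) / ((KP (2 * n - 1)).card : ℝ) := by
  have h1 := area_low_pow (n := 2 * n - 1) (by omega) (by omega) k
  have h2 := KP_pos (n := 2 * n - 1) (by omega) (by omega)
  refine div_pos (lt_of_lt_of_le ?_ h1) h2
  positivity

/-- **Theorem.** For every `k` and every `r ≥ 1` there is a constant `K` such that for all `n ≥ 2`
the `r`-th difference of `log E[(A_n / E[A_n])^k]` is at most `K (log n / √n)^r` in absolute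
value. -/
theorem result : ∀ k r : ℕ, 1 ≤ r → ∃ K : ℝ, ∀ n : ℕ, 2 ≤ n →
      |∑ i ∈ Finset.range (r + 1), (-1 : ℝ) ^ i * (r.choose i : ℝ) *
        Real.log (nmoment k (n + i))| ≤ K * (Real.log n / Real.sqrt n) ^ r := by
  intro k r hr
  obtain ⟨C, hC, h⟩ := area_main k r hr
  obtain ⟨C', hC', h'⟩ := area_main 1 r hr
  refine ⟨C + k * C', fun n hn => ?_⟩
  have h1 := h n hn
  have h2 := h' n hn
  have e : ∑ i ∈ Finset.range (r + 1), (-1 : ℝ) ^ i * (r.choose i : ℝ) *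
        Real.log (nmoment k (n + i)) =
      (∑ i ∈ Finset.range (r + 1), (-1 : ℝ) ^ i * (r.choose i : ℝ) *
        Real.log ((∑ w ∈ KP (2 * (n + i) - 1), (ar w : ℝ) ^ k) /
          ((KP (2 * (n + i) - 1)).card : ℝ))) -
      k * (∑ i ∈ Finset.range (r + 1), (-1 : ℝ) ^ i * (r.choose i : ℝ) *
        Real.log ((∑ w ∈ KP (2 * (n + i) - 1), (ar w : ℝ) ^ 1) /
          ((KP (2 * (n + i) - 1)).card : ℝ))) := by
    rw [Finset.mul_sum, ← Finset.sum_sub_distrib]
    refine Finset.sum_congr rfl (fun i _ => ?_)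
    rw [nm_eq k (by omega), Real.log_div (mk_pos k (by omega)).ne'
      (pow_pos (mk_pos 1 (by omega)) k).ne', Real.log_pow]
    ring
  rw [e]
  refine (abs_sub _ _).trans ?_
  rw [abs_mul, abs_of_nonneg (Nat.cast_nonneg (α := ℝ) k)]
  have h3 := mul_le_mul_of_nonneg_left h2 (Nat.cast_nonneg (α := ℝ) k)
  calc _ ≤ C * (Real.log n / Real.sqrt n) ^ r + k * (C' * (Real.log n / Real.sqrt n) ^ r) :=
        add_le_add h1 h3
    _ = _ := by ring

end Pool.Agent.Results.MP_f6626d_co.AllOrders
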