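import Pool.Agent.N949.AL.Cons

/-!
Area law of square-lattice self-avoiding polygons: Gaussian bound for the characteristic function of
the area of the uniform polygon of perimeter `2 n`, smoothness of its law to all orders, and
equidistribution in residue classes with exponentially small error, also conditionally on the trace
of the polygon on a set of `n / C` lattice points.
-/

set_option autoImplicit false

namespace Pool.Agent.Results.MP_f6626d_co.AreaLawAllOrders

/-- a closed nearest-neighbour loop on `ℤ²` with `m` steps, rooted at the origin and oriented,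
that visits no vertex twice -/
def IsLoop (m : ℕ) (f : ZMod m → ℤ × ℤ) : Prop :=
  f 0 = 0 ∧ Function.Injective f ∧
    ∀ i : ZMod m, |(f (i + 1)).1 - (f i).1| + |(f (i + 1)).2 - (f i).2| = 1

/-- the edge from `f k` to `f (k+1)` is horizontal, joins the columns `x = a` and `x = a + 1`, and
has height larger than `b`: it lies above the unit cell `[a, a+1] × [b, b+1]` -/
def Above (m : ℕ) (f : ZMod m → ℤ × ℤ) (a b : ℤ) (k : ZMod m) : Prop :=
  (((f k).1 = a ∧ (f (k + 1)).1 = a + 1) ∨ ((f k).1 = a + 1 ∧ (f (k + 1)).1 = a)) ∧ b < (f k).2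

/-- the unit cell `[a, a+1] × [b, b+1]` is enclosed by the loop: the vertical ray from the cell
upwards crosses an odd number of edges -/
def Encl (m : ℕ) (f : ZMod m → ℤ × ℤ) (c : ℤ × ℤ) : Prop :=
  Odd (Nat.card {k : ZMod m // Above m f c.1 c.2 k})

/-- the area: the number of unit cells enclosed by the loop -/
noncomputable def area (m : ℕ) (f : ZMod m → ℤ × ℤ) : ℕ := Nat.card {c : ℤ × ℤ // Encl m f c}

/-- expectation under the uniform law on the (rooted, oriented) self-avoiding polygons of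
perimeter `2 n` -/
noncomputable def E (n : ℕ) (F : (ZMod (2 * n) → ℤ × ℤ) → ℝ) : ℝ :=
  (∑ᶠ f ∈ {f : ZMod (2 * n) → ℤ × ℤ | IsLoop (2 * n) f}, F f) /
    ({f : ZMod (2 * n) → ℤ × ℤ | IsLoop (2 * n) f}.ncard : ℝ)

/-- the function `F` of the polygon does not change when one vertex of the polygon is moved and
neither its old nor its new position is in `V` -/
def Unchanged (n : ℕ) (V : Finset (ℤ × ℤ)) (F : (ZMod (2 * n) → ℤ × ℤ) → ℝ) : Prop :=
  ∀ f f' : ZMod (2 * n) → ℤ × ℤ, IsLoop (2 * n) f → IsLoop (2 * n) f' → ∀ k,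
    (∀ j, j ≠ k → f j = f' j) → f k ∉ V → f' k ∉ V → F f' = F f

open scoped Classical in
/-- **Theorem.** Let `A_n` be the area of the uniform self-avoiding polygon of perimeter `2 n` on
`ℤ²`. There are `C ≥ 1` and `A : ℕ → ℝ` such that for all `n ≥ 2`, all sets `V` of at most `n / C`
points of `ℤ²` and all functions `F` of the polygon with values in `[-1, 1]` which do not change when
one vertex of the polygon is moved outside of `V` (for example `F = 1`, or a function of the times and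
places of the visits of the polygon to `V`):
(1) `|E[F cos(t A_n + φ)]| ≤ C (E|F| exp(- n sin²(t/2) / C) + exp(- n / C))` for all real `t`, `φ`;
(2) `|E[F ∑ (-1)^i C(k,i) h(A_n + i)]| ≤ A k (E|F| n^(-k/2) + exp(- n / C))` for all `k` and all
functions `h` with values in `[-1, 1]`;
(3) `|E[F ∑ (-1)^i C(k,i) 1(A_n + i = a)]| ≤ A (k+1) (E|F| n^(-(k+1)/2) + exp(- n / C))` for all `k`
and `a`;
(4) `|E[F 1(A_n ≡ r mod q)] - E[F] / q| ≤ C (E|F| exp(- n / (C q²)) + exp(- n / C))` for all `q ≥ 1`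
and `r`.
In (2) and (3) `i` runs from `0` to `k`. -/
theorem result : ∃ C : ℝ, 1 ≤ C ∧ ∃ A : ℕ → ℝ, ∀ n : ℕ, 2 ≤ n →
    ∀ (V : Finset (ℤ × ℤ)) (F : (ZMod (2 * n) → ℤ × ℤ) → ℝ), C * V.card ≤ n →
    (∀ f, IsLoop (2 * n) f → |F f| ≤ 1) → Unchanged n V F →
    (∀ t φ : ℝ, |E n (fun f => F f * Real.cos (t * (area (2 * n) f : ℝ) + φ))| ≤
      C * (E n (fun f => |F f|) * Real.exp (-(Real.sin (t / 2) ^ 2 * n / C)) +
        Real.exp (-(n / C)))) ∧
    (∀ (k : ℕ) (h : ℕ → ℝ), (∀ a, |h a| ≤ 1) →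
      |E n (fun f => F f * ∑ i ∈ Finset.range (k + 1), (-1 : ℝ) ^ i * (k.choose i : ℝ) *
        h (area (2 * n) f + i))| ≤
      A k * (E n (fun f => |F f|) / Real.sqrt n ^ k + Real.exp (-(n / C)))) ∧
    (∀ k a : ℕ,
      |E n (fun f => F f * ∑ i ∈ Finset.range (k + 1), (-1 : ℝ) ^ i * (k.choose i : ℝ) *
        (if area (2 * n) f + i = a then (1 : ℝ) else 0))| ≤
      A (k + 1) * (E n (fun f => |F f|) / Real.sqrt n ^ (k + 1) + Real.exp (-(n / C)))) ∧
    ∀ q : ℕ, 1 ≤ q → ∀ r : ℕ,
      |E n (fun f => F f * (if area (2 * n) f ≡ r [MOD q] then (1 : ℝ) else 0)) - E n F / q| ≤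
      C * (E n (fun f => |F f|) * Real.exp (-(n / (C * q ^ 2))) + Real.exp (-(n / C))) := by
  obtain ⟨C, hC, A, h⟩ := Pool.Agent.N949.AL.fin
  refine ⟨C, hC, A, fun n hn V F hV hF hU => ?_⟩
  obtain ⟨g1, g2, g3⟩ := h n hn V F hV hF hU
  refine ⟨g1, g2, fun k a => ?_, g3⟩
  have h3 := g2 (k + 1) (fun m => if m ≤ a then (1 : ℝ) else 0) (fun m => by
    split_ifs <;> norm_num)
  simp only [Pool.Agent.N949.AL.dif_ind1] at h3
  exact h3

end Pool.Agent.Results.MP_f6626d_co.AreaLawAllOrders
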