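import Pool.Agent.N226.SX.Form
import Pool.Agent.Results.MP_f6626d_co.AllOrders

/-!
# The normalised moments of the area of self-avoiding polygons, from sparse perimeters
-/

set_option autoImplicit false

namespace Pool.Agent.Results.MP_f6626d_co.MomentsFromSparsePerimeters

open Finset Filter Topology Pool.Agent.Results.MP_f6626d_co.AllOrders

/-- The expansion `∑ a_i n ^ (-θ_i)`. -/
noncomputable def expansion (q : ℕ) (a θ : Fin q → ℝ) (n : ℕ) : ℝ :=
  ∑ i, a i * (n : ℝ) ^ (-(θ i))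

theorem nmoment_pos (k : ℕ) {n : ℕ} (hn : 2 ≤ n) : 0 < nmoment k n := by
  rw [nm_eq k hn]
  exact div_pos (mk_pos k hn) (pow_pos (mk_pos 1 hn) k)

theorem expansion_eq (q : ℕ) (a θ : Fin q → ℝ) (n : ℕ) :
    expansion q a θ n = Pool.Agent.N226.SX.G q 0 a θ n := by
  unfold expansion Pool.Agent.N226.SX.G
  rw [zero_mul, zero_add]

/-- Let `m_k(n) = E[(A_n / E[A_n])^k]` be the normalised moments of the area `A_n` of the uniform
self-avoiding polygon of perimeter `2 n` on `ℤ²`. Let `u_j → ∞` be a sequence of integers with gaps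
at most `u_j ^ α` for some `α < 1 / 2` (for instance `u_j = ⌊j ^ 1.99⌋`). For every `k`:

(1) if `m_k(u_j)` converges to some `C > 0`, then `m_k(n)` converges to `C` along all `n`;

(2) if `log m_k(n) = ∑ a_i n ^ (-θ_i) + O(n ^ (-M))` along `n = u_j`, a finite expansion with any
real exponents `θ_i ≥ 0` and `M ≥ 0`, then for all `s ≥ 0` and `b < 1 / 2` the `s`-th difference of
`log m_k(n) - ∑ a_i n ^ (-θ_i)` is `O(n ^ (-M - b s))` for all `n` (for `s = 0`: the expansion holds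
for all `n` with the same error).

(3) If for every `k` the moments `m_k` converge to some `C_k > 0` along a sequence `u^(k)` of this
kind, which may depend on `k`, then all the moments converge to the `C_k` along all `n`. -/
theorem result :
    (∀ (k : ℕ) (α : ℝ), 0 ≤ α → α < 1 / 2 → ∀ u : ℕ → ℕ, Tendsto u atTop atTop →
      (∀ᶠ j : ℕ in atTop, (u (j + 1) : ℝ) ≤ u j + (u j : ℝ) ^ α) →
      (∀ C : ℝ, 0 < C → Tendsto (fun j : ℕ => nmoment k (u j)) atTop (𝓝 C) →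
        Tendsto (fun n : ℕ => nmoment k n) atTop (𝓝 C)) ∧
      ∀ (q : ℕ) (a θ : Fin q → ℝ), (∀ i, 0 ≤ θ i) → ∀ M : ℝ, 0 ≤ M →
        (∃ C : ℝ, ∀ᶠ j : ℕ in atTop,
          |Real.log (nmoment k (u j)) - expansion q a θ (u j)| ≤ C * (u j : ℝ) ^ (-M)) →
        ∀ (s : ℕ) (b : ℝ), 0 ≤ b → b < 1 / 2 → ∃ C : ℝ, ∀ᶠ n : ℕ in atTop,
          |∑ i ∈ range (s + 1), (-1 : ℝ) ^ i * (s.choose i : ℝ) *
            (Real.log (nmoment k (n + i)) - expansion q a θ (n + i))| ≤
            C * (n : ℝ) ^ (-(M + b * s))) ∧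
    ∀ (C : ℕ → ℝ), (∀ k, 0 < C k) →
      (∀ k, ∃ (α : ℝ) (u : ℕ → ℕ), 0 ≤ α ∧ α < 1 / 2 ∧ Tendsto u atTop atTop ∧
        (∀ᶠ j : ℕ in atTop, (u (j + 1) : ℝ) ≤ u j + (u j : ℝ) ^ α) ∧
        Tendsto (fun j : ℕ => nmoment k (u j)) atTop (𝓝 (C k))) →
      ∀ k, Tendsto (fun n : ℕ => nmoment k n) atTop (𝓝 (C k)) := by
  have hreg : ∀ k : ℕ, Pool.Agent.N226.SX.Reg (1 / 2) (fun n : ℕ => Real.log (nmoment k n)) := by
    intro k
    refine Pool.Agent.N226.SX.reg_of_log_one fun r hr => ?_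
    obtain ⟨K, hK⟩ := Pool.Agent.Results.MP_f6626d_co.AllOrders.result k r hr
    exact ⟨K, (eventually_ge_atTop 2).mono fun n hn => hK n hn⟩
  have key : ∀ (k : ℕ) (α : ℝ), 0 ≤ α → α < 1 / 2 → ∀ u : ℕ → ℕ, Tendsto u atTop atTop →
      (∀ᶠ j : ℕ in atTop, (u (j + 1) : ℝ) ≤ u j + (u j : ℝ) ^ α) →
      (∀ C : ℝ, 0 < C → Tendsto (fun j : ℕ => nmoment k (u j)) atTop (𝓝 C) →
        Tendsto (fun n : ℕ => nmoment k n) atTop (𝓝 C)) := by
    intro k α hα0 hα u hu hgap C hC hval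
    have hP : ∀ᶠ n : ℕ in atTop, 0 < nmoment k n :=
      (eventually_ge_atTop 2).mono fun n hn => nmoment_pos k hn
    have h1 := Pool.Agent.N226.SX.form_one (by norm_num) hP (hreg k) α hα0 hα u hu hgap 0 C hC
      (by simpa only [Real.rpow_zero, div_one] using hval)
    simpa only [Real.rpow_zero, div_one] using h1
  refine ⟨fun k α hα0 hα u hu hgap => ⟨key k α hα0 hα u hu hgap, ?_⟩, ?_⟩
  · intro q a θ hθ M hM hval s b hb0 hb
    simp only [expansion_eq] at hval ⊢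
    exact Pool.Agent.N226.SX.main_one (by norm_num) (hreg k)
      (Pool.Agent.N226.SX.reg_G1 (1 / 2) (by norm_num) q 0 a θ hθ) M α hM hα0 hα u hu hgap hval
      s b hb0 hb
  · intro C hC h k
    obtain ⟨α, u, hα0, hα, hu, hgap, hval⟩ := h k
    exact key k α hα0 hα u hu hgap (C k) (hC k) hval

end Pool.Agent.Results.MP_f6626d_co.MomentsFromSparsePerimeters
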