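import Pool.Agent.N949.PG.All

/-!
Self-avoiding polygons of the square lattice, divided by their diameter: which closed curves, and
which values of the ratio `area / diameter²`, are charged at quasi-polynomial level.
-/

set_option autoImplicit false

namespace Pool.Agent.Results.MP_f6626d_co.ShapesAndArea

/-- a closed nearest-neighbour loop on `ℤ²` with `m` steps, rooted at the origin and oriented,
that visits no vertex twice -/
def IsLoop (m : ℕ) (f : ZMod m → ℤ × ℤ) : Prop :=
  f 0 = 0 ∧ Function.Injective f ∧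
    ∀ i : ZMod m, |(f (i + 1)).1 - (f i).1| + |(f (i + 1)).2 - (f i).2| = 1

/-- The probability of `E` for the uniform (rooted, oriented) self-avoiding polygon of perimeter
`2 n`. -/
noncomputable def prob (n : ℕ) (E : (ZMod (2 * n) → ℤ × ℤ) → Prop) : ℝ :=
  ({f : ZMod (2 * n) → ℤ × ℤ | IsLoop (2 * n) f ∧ E f}.ncard : ℝ) /
    ({f : ZMod (2 * n) → ℤ × ℤ | IsLoop (2 * n) f}.ncard : ℝ)

/-- A lattice point as a point of the plane `ℂ`. -/
noncomputable def pt (p : ℤ × ℤ) : ℂ := (p.1 : ℂ) + (p.2 : ℂ) * Complex.I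

/-- The polygon as a closed curve in `C([0,1], ℂ)`: the value at `t` is
`∑_{k < m} clamp (m t - k) (f (k+1) - f k)`, where `clamp u = max 0 (min 1 u)`, i.e. the value at
`k / m` is `f k`, with linear interpolation between these times. -/
noncomputable def curve (m : ℕ) (f : ZMod m → ℤ × ℤ) : C(unitInterval, ℂ) where
  toFun t := ∑ k ∈ Finset.range m, ((max 0 (min 1 (m * (t : ℝ) - (k : ℝ))) : ℝ) : ℂ) *
      (pt (f ((k + 1 : ℕ) : ZMod m)) - pt (f (k : ZMod m)))
  continuous_toFun := by fun_prop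

/-- the diameter of the polygon -/
noncomputable def diam (m : ℕ) (f : ZMod m → ℤ × ℤ) : ℝ := Metric.diam (Set.range (curve m f))

/-- the closed curve divided by its diameter -/
noncomputable def Y (m : ℕ) (f : ZMod m → ℤ × ℤ) : C(unitInterval, ℂ) :=
  (diam m f)⁻¹ • curve m f

/-- the simple closed curves of diameter `1` with start and end at `0` -/
def Jordan : Set C(unitInterval, ℂ) :=
  {γ | γ 0 = 0 ∧ γ 1 = 0 ∧ (∀ s t : unitInterval, s ≠ 1 → t ≠ 1 → γ s = γ t → s = t) ∧
    Metric.diam (Set.range γ) = 1}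

/-- the edge from `f k` to `f (k+1)` is horizontal, joins the columns `x = a` and `x = a + 1`, and
has height larger than `b`: it lies above the unit cell `[a, a+1] × [b, b+1]` -/
def Above (m : ℕ) (f : ZMod m → ℤ × ℤ) (a b : ℤ) (k : ZMod m) : Prop :=
  (((f k).1 = a ∧ (f (k + 1)).1 = a + 1) ∨ ((f k).1 = a + 1 ∧ (f (k + 1)).1 = a)) ∧ b < (f k).2

/-- the unit cell `[a, a+1] × [b, b+1]` is enclosed by the loop: the vertical ray from the cell
upwards crosses an odd number of edges -/
def Encl (m : ℕ) (f : ZMod m → ℤ × ℤ) (c : ℤ × ℤ) : Prop :=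
  Odd (Nat.card {k : ZMod m // Above m f c.1 c.2 k})

/-- the area: the number of unit cells enclosed by the loop -/
noncomputable def area (m : ℕ) (f : ZMod m → ℤ × ℤ) : ℕ := Nat.card {c : ℤ × ℤ // Encl m f c}

/-- **Theorem.** Let `f` be the uniform self-avoiding polygon of perimeter `2 n` on `ℤ²` (rooted and
oriented), `Y f` the closed curve obtained by dividing it by its diameter, with its natural
parametrization by `[0, 1]`.
(1) If `γ ∈ C([0,1], ℂ)` is a uniform limit of simple closed curves of diameter `1` with start at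
`0`, then for every `ε > 0` there is `K` such that `‖Y f - γ‖ ≤ ε` with probability at least
`exp (- K (log n)^3)` for all large `n`.
(2) Otherwise there is `ε > 0` for which this probability is `0` for every `n ≥ 2`.
(3) For every `a ∈ [0, π/4]` and every `ε > 0` there is `K` such that the ratio
`area / diameter²` is within `ε` of `a` with probability at least `exp (- K (log n)^3)` for all
large `n`.
(4) For every `n ≥ 2` and every polygon of perimeter `2 n` this ratio is at most `π/4`. -/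
theorem result :
    (∀ γ ∈ closure Jordan, ∀ ε : ℝ, 0 < ε → ∃ (K : ℝ) (n₀ : ℕ), ∀ n ≥ n₀,
      Real.exp (-(K * Real.log n ^ 3)) ≤ prob n (fun f => ‖Y (2 * n) f - γ‖ ≤ ε)) ∧
    (∀ γ ∉ closure Jordan, ∃ ε : ℝ, 0 < ε ∧ ∀ n ≥ 2,
      prob n (fun f => ‖Y (2 * n) f - γ‖ ≤ ε) = 0) ∧
    (∀ a : ℝ, 0 ≤ a → a ≤ Real.pi / 4 → ∀ ε : ℝ, 0 < ε → ∃ (K : ℝ) (n₀ : ℕ), ∀ n ≥ n₀,
      Real.exp (-(K * Real.log n ^ 3)) ≤ prob n (fun f =>
        |(area (2 * n) f : ℝ) / diam (2 * n) f ^ 2 - a| ≤ ε)) ∧
    ∀ n ≥ 2, ∀ f : ZMod (2 * n) → ℤ × ℤ, IsLoop (2 * n) f →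
      (area (2 * n) f : ℝ) / diam (2 * n) f ^ 2 ≤ Real.pi / 4 := by
  obtain ⟨h1, h2, h3, h4⟩ := Pool.Agent.N949.PG.all
  refine ⟨h1, h2, h3, fun n hn f hf => ?_⟩
  have h5 := h4 n hn f hf
  rcases eq_or_lt_of_le (sq_nonneg (diam (2 * n) f)) with h6 | h6
  · rw [← h6, div_zero]
    positivity
  · rw [div_le_iff₀ h6]
    exact h5

end Pool.Agent.Results.MP_f6626d_co.ShapesAndArea
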